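import Pool.Agent.Lib.MP_5499ac_co.Main

namespace Pool.Agent.Results.MP_5499ac_co.LeastM

open Pool.Agent.Lib.MP_5499ac_co

universe u

/-- For every finite field, the least admissible integer is `1`. -/
theorem result (K : Type u) [Field K] [Fintype K] : IsLeast {M : ℤ | Admissible K M} 1 := by
  refine ⟨admissible_one K, fun M hM => ?_⟩
  by_contra h
  exact not_admissible K (by omega) hM

end Pool.Agent.Results.MP_5499ac_co.LeastM
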